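import Pool.Agent.H69.LQ.Lib

/-!
# Board `lqm_modules`, row M1: degree `n ≥ 1`
-/

set_option autoImplicit false

open MeasureTheory Metric Set Filter Topology
open scoped ENNReal
open Pool.Agent.H85.LK (E adm lam Ann)
open Pool.Agent.H69.LQ

namespace Pool.Agent.H33.LQ

theorem m1_q {f f' : ℝ → ℝ} (hf : C1 f f') (h0 : f 0 = 0) :
    ∃ q : ℝ → ℝ, Continuous q ∧ ∀ r, f r = r * q r := by
  refine ⟨dslope f 0, ?_, fun r => ?_⟩
  · rw [continuous_iff_continuousAt]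
    intro r
    by_cases hr : r = 0
    · subst hr
      exact continuousAt_dslope_same.2 (hf.1 0).differentiableAt
    · exact (continuousAt_dslope_of_ne hr).2 (hf.1 r).continuousAt
  · have h1 := sub_smul_dslope f 0 r
    rw [h0, sub_zero, sub_zero, smul_eq_mul] at h1
    exact h1.symm

/-- `r p'(r) / p(r)` -/
noncomputable def m1h (N : ℕ) (L : ℝ) (n : ℕ) (r : ℝ) : ℝ :=
  n - (L * r ^ 2 / 2) * (J ((N : ℝ) / 2 + n + 1) (L * r ^ 2 / 4) / ((N : ℝ) / 2 + n)) /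
    J ((N : ℝ) / 2 + n) (L * r ^ 2 / 4)

theorem m1h_cont (hJS : T_JS) (N n : ℕ) (L : ℝ) (hN : 2 ≤ N) : ContinuousAt (m1h N L n) 0 := by
  have hm : (0 : ℝ) < (N : ℝ) / 2 + n := by
    have : (2 : ℝ) ≤ N := by exact_mod_cast hN
    positivity
  have hJ1 : Continuous (J ((N : ℝ) / 2 + n)) := (hJS _ hm).1.continuous
  have hJ2 : Continuous (J ((N : ℝ) / 2 + n + 1)) := (hJS _ (by linarith)).1.continuous
  have hr : Continuous fun r : ℝ => L * r ^ 2 / 4 := by fun_prop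
  unfold m1h
  refine ContinuousAt.sub continuousAt_const (ContinuousAt.div ?_ ?_ ?_)
  · refine ContinuousAt.mul (by fun_prop) (ContinuousAt.div_const ?_ _)
    exact (hJ2.comp hr).continuousAt
  · exact (hJ1.comp hr).continuousAt
  · rw [show L * (0 : ℝ) ^ 2 / 4 = 0 by ring, (hJS _ hm).2.1]
    exact one_ne_zero

theorem m1h_eq (N n : ℕ) (L μ ε : ℝ) (hn : 1 ≤ n) (hμ : 0 < μ) (hε : 0 < ε)
    (h : 0 < ph N L n (μ * ε)) :
    μ * dph N L n (μ * ε) / ph N L n (μ * ε) = m1h N L n (μ * ε) / ε := by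
  obtain ⟨r, hr⟩ : ∃ r, r = μ * ε := ⟨_, rfl⟩
  have hr0 : 0 < r := hr ▸ mul_pos hμ hε
  rw [← hr] at h ⊢
  obtain ⟨A, hA⟩ : ∃ A, A = J ((N : ℝ) / 2 + n) (L * r ^ 2 / 4) := ⟨_, rfl⟩
  obtain ⟨B, hB⟩ : ∃ B, B = J ((N : ℝ) / 2 + n + 1) (L * r ^ 2 / 4) / ((N : ℝ) / 2 + n) :=
    ⟨_, rfl⟩
  have hph : ph N L n r = r ^ n * A := by rw [ph, hA]
  have hdph : dph N L n r = n * r ^ (n - 1) * A - r ^ n * (L * r / 2) * B := by
    rw [dph, hA, hB]
  have hh : m1h N L n r = n - (L * r ^ 2 / 2) * B / A := by rw [m1h, hA, hB]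
  have hA0 : A ≠ 0 := by
    intro h0
    rw [hph, h0, mul_zero] at h
    exact lt_irrefl _ h
  have hpow : r ^ n = r * r ^ (n - 1) := by
    rw [← pow_succ', Nat.sub_add_cancel hn]
  have hε0 : ε ≠ 0 := hε.ne'
  have hrn : r ^ (n - 1) ≠ 0 := pow_ne_zero _ hr0.ne'
  have hr00 : r ≠ 0 := hr0.ne'
  rw [hph, hdph, hh, hpow, div_eq_div_iff (mul_ne_zero (mul_ne_zero hr00 hrn) hA0) hε0]
  have hB' : (L * r ^ 2 / 2) * B / A * A = (L * r ^ 2 / 2) * B := div_mul_cancel₀ _ hA0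
  linear_combination (r * r ^ (n - 1)) * hB' -
    (n * r ^ (n - 1) * A - r * r ^ (n - 1) * (L * r / 2) * B) * hr

theorem pf_M1 (hJS : T_JS) (hJC : T_JC) : T_M1 := by
  intro N n L μ a f f' hN hn hμ ha hpos hf h0
  obtain ⟨q, hq, hfq⟩ := m1_q hf h0
  have hfc : Continuous f := continuous_iff_continuousAt.2 fun r => (hf.1 r).continuousAt
  obtain ⟨G, hG⟩ : ∃ G : ℝ → ℝ, G = fun r => r ^ (N - 1) * (f' r ^ 2 +
    (n * (n + N - 2) : ℝ) * q r ^ 2 - μ ^ 2 * L * f r ^ 2) := ⟨_, rfl⟩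
  have hGc : Continuous G := by
    rw [hG]
    have := hf.2
    fun_prop
  have hgG : ∀ r : ℝ, 0 < r → r ^ (N - 1) *
      (f' r ^ 2 + (n * (n + N - 2) / r ^ 2 - μ ^ 2 * L) * f r ^ 2) = G r := by
    intro r hr
    have hr0 : r ≠ 0 := hr.ne'
    simp only [hG]
    rw [hfq r]
    field_simp
    ring
  have hint : ∀ ε : ℝ, 0 ≤ ε → ε ≤ a → (∫ r in ε..a, r ^ (N - 1) *
      (f' r ^ 2 + (n * (n + N - 2) / r ^ 2 - μ ^ 2 * L) * f r ^ 2)) = ∫ r in ε..a, G r := by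
    intro ε hε hεa
    rw [intervalIntegral.integral_of_le hεa, intervalIntegral.integral_of_le hεa]
    refine setIntegral_congr_fun measurableSet_Ioc fun r hr => ?_
    exact hgG r (lt_of_le_of_lt hε hr.1)
  rw [hint 0 le_rfl ha.le]
  have hstep : ∀ ε : ℝ, 0 < ε → ε ≤ a → dd N L n μ a * f a ^ 2 ≤
      (∫ r in ε..a, G r) + ε ^ N * m1h N L n (μ * ε) * q ε ^ 2 := by
    intro ε hε hεa
    have h1 := hJC N n L μ ε a f f' hN hμ hε hεa (fun r hr hra =>
      (hpos (μ * r) (mul_pos hμ (lt_of_lt_of_le hε hr)) (mul_le_mul_of_nonneg_left hra hμ.le)).ne')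
      hf
    rw [hint ε hε.le hεa] at h1
    have h2 : dd N L n μ ε * f ε ^ 2 = ε ^ N * m1h N L n (μ * ε) * q ε ^ 2 := by
      rw [dd, m1h_eq N n L μ ε hn hμ hε (hpos _ (mul_pos hμ hε)
        (mul_le_mul_of_nonneg_left hεa hμ.le)), hfq ε]
      have h3 : ε ^ N = ε * ε ^ (N - 1) := by
        rw [← pow_succ', Nat.sub_add_cancel (by omega)]
      rw [h3]
      have hε0 : ε ≠ 0 := hε.ne'
      field_simp
    rw [h2] at h1
    linarith
  have hlim : Tendsto (fun ε : ℝ => (∫ r in ε..a, G r) + ε ^ N * m1h N L n (μ * ε) * q ε ^ 2)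
      (𝓝[>] 0) (𝓝 (∫ r in (0 : ℝ)..a, G r)) := by
    have h1 : ContinuousAt (fun ε : ℝ => (∫ r in ε..a, G r) +
        ε ^ N * m1h N L n (μ * ε) * q ε ^ 2) 0 := by
      refine ContinuousAt.add ?_ (ContinuousAt.mul (ContinuousAt.mul (by fun_prop) ?_) ?_)
      · have h2 : (fun ε : ℝ => ∫ r in ε..a, G r) = fun ε => - ∫ r in a..ε, G r := by
          funext ε
          rw [intervalIntegral.integral_symm]
        rw [h2]
        exact (intervalIntegral.continuous_primitive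
          (fun _ _ => hGc.intervalIntegrable _ _) a).neg.continuousAt
      · have h3 : ContinuousAt (m1h N L n) (μ * 0) := by
          rw [mul_zero]
          exact m1h_cont hJS N n L hN
        exact ContinuousAt.comp (f := fun ε : ℝ => μ * ε) h3 (by fun_prop)
      · exact (hq.pow 2).continuousAt
    have h2 := h1.tendsto
    simp only [zero_pow (show N ≠ 0 by omega), zero_mul, add_zero] at h2
    exact h2.mono_left nhdsWithin_le_nhds
  refine ge_of_tendsto hlim ?_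
  have h3 : Ioc (0 : ℝ) a ∈ 𝓝[>] (0 : ℝ) := Ioc_mem_nhdsGT ha
  filter_upwards [h3] with ε hε
  exact hstep ε hε.1 hε.2

end Pool.Agent.H33.LQ
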