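import Pool.Agent.H69.LQ.Lib

/-!
# Board `lqm_modules`, row AS: expansions at `r = 1`
-/

set_option autoImplicit false

open MeasureTheory Metric Set Filter Topology
open scoped ENNReal
open Pool.Agent.H85.LK (E adm lam Ann)
open Pool.Agent.H69.LQ

namespace Pool.Agent.H33.LQ

theorem as_pow (R : ℝ) (N : ℕ) (hN : 1 ≤ N) (hR : 0 ≤ R) : |R - 1| ≤ |R ^ N - 1| := by
  have h1 : (∑ i ∈ Finset.range N, R ^ i) * (R - 1) = R ^ N - 1 := geom_sum_mul R N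
  have h2 : 1 ≤ ∑ i ∈ Finset.range N, R ^ i := by
    have h3 := Finset.single_le_sum (f := fun i => R ^ i) (s := Finset.range N)
      (fun i _ => pow_nonneg hR i) (Finset.mem_range.2 (show 0 < N by omega))
    simpa using h3
  rw [← h1, abs_mul, abs_of_nonneg (zero_le_one.trans h2)]
  exact le_mul_of_one_le_left (abs_nonneg _) h2

theorem as_qq (N : ℕ) : ContDiff ℝ (⊤ : ℕ∞) (qq N) ∧
    ∀ R, HasDerivAt (qq N) (R ^ N * Real.exp (-R ^ 2)) R := by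
  have hc : Continuous fun r : ℝ => r ^ N * Real.exp (-r ^ 2) := by fun_prop
  have hd : ∀ R, HasDerivAt (qq N) (R ^ N * Real.exp (-R ^ 2)) R := fun R =>
    intervalIntegral.integral_hasDerivAt_right (hc.intervalIntegrable _ _)
      (hc.stronglyMeasurableAtFilter _ _) hc.continuousAt
  refine ⟨?_, hd⟩
  rw [contDiff_infty_iff_deriv]
  refine ⟨fun R => (hd R).differentiableAt, ?_⟩
  have : deriv (qq N) = fun R => R ^ N * Real.exp (-R ^ 2) := funext fun R => (hd R).deriv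
  rw [this]
  fun_prop

theorem pf_AS (hPH : T_PH) (hPV : T_PV) (hTA : T_TA) : T_AS := by
  intro N L hN hL
  obtain ⟨M, rfl⟩ : ∃ M, N = M + 1 := ⟨N - 1, by omega⟩
  obtain ⟨hd, hsm, hode⟩ := hPH (M + 1) L hN
  obtain ⟨-, hp1, hq, -⟩ := hPV (M + 1) L hN hL
  obtain ⟨p, hp⟩ : ∃ p, p = ph (M + 1) L 1 := ⟨_, rfl⟩
  obtain ⟨p', hp'⟩ : ∃ p', p' = dph (M + 1) L 1 := ⟨_, rfl⟩
  have hff : ∀ R, ff (M + 1) L R = -(R ^ M * p' R * p R) := fun R => by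
    rw [ff, hp, hp', Nat.add_sub_cancel]
  have hdp : ∀ R, HasDerivAt p (p' R) R := fun R => by rw [hp, hp']; exact hd 1 R
  have hsp : ContDiff ℝ (⊤ : ℕ∞) p := by rw [hp]; exact (hsm 1).1
  have hsp' : ContDiff ℝ (⊤ : ℕ∞) p' := by rw [hp']; exact (hsm 1).2
  have hode1 : HasDerivAt (fun r => r ^ M * p' r) 0 1 := by
    have h := hode 1 1 one_pos
    rw [← hp', hp1, mul_zero, mul_zero] at h
    exact h
  rw [← hp, ← hp'] 
  rw [← hp] at hp1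
  rw [← hp'] at hq
  obtain ⟨q, hqq⟩ : ∃ q, q = p' 1 := ⟨_, rfl⟩
  rw [← hqq] at hq ⊢
  -- the second derivative
  obtain ⟨p2, hp2⟩ : ∃ p2, p2 = deriv p' := ⟨_, rfl⟩
  have hsp2 : ContDiff ℝ (⊤ : ℕ∞) p2 := by
    rw [hp2]
    exact (contDiff_infty_iff_deriv.1 hsp').2
  have hdp' : ∀ R, HasDerivAt p' (p2 R) R := fun R => by
    rw [hp2]
    exact ((contDiff_infty_iff_deriv.1 hsp').1 R).hasDerivAt
  have hdp2 : ∀ R, HasDerivAt p2 (deriv p2 R) R := fun R =>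
    ((contDiff_infty_iff_deriv.1 hsp2).1 R).hasDerivAt
  have hM : ((M + 1 : ℕ) : ℝ) = M + 1 := by push_cast; ring
  have hMpos : (0 : ℝ) < (M : ℝ) + 1 := by positivity
  have hM0 : ((M : ℝ) + 1) ≠ 0 := hMpos.ne'
  have hp21 : p2 1 = -(M : ℝ) * q := by
    have h1 : HasDerivAt (fun r => r ^ M * p' r) ((M : ℝ) * 1 ^ (M - 1) * p' 1 + 1 ^ M * p2 1) 1 :=
      (hasDerivAt_pow M (1 : ℝ)).mul (hdp' 1)
    have h2 := h1.unique hode1
    rw [one_pow, one_pow, ← hqq] at h2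
    linarith
  -- the functions
  obtain ⟨Cb, hCb, hb⟩ := (hTA p hsp hp1).1
  have hsb2 : ContDiff ℝ (⊤ : ℕ∞) fun R => p R - q * (R - 1) := by fun_prop
  have hdb2 : deriv (fun R => p R - q * (R - 1)) 1 = 0 := by
    have h1 : HasDerivAt (fun R => p R - q * (R - 1)) (p' 1 - q * 1) 1 :=
      (hdp 1).sub (((hasDerivAt_id (1 : ℝ)).sub_const 1).const_mul q)
    rw [h1.deriv, ← hqq]
    ring
  obtain ⟨Cb2, hCb2, hb2⟩ := (hTA _ hsb2 (by simp [hp1])).2.1 hdb2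
  obtain ⟨Cc, hCc, hc⟩ := (hTA (fun R => R ^ (M + 1) - 1) (by fun_prop) (by simp)).1
  have hsd : ContDiff ℝ (⊤ : ℕ∞) fun R => p R - q / ((M + 1 : ℕ) : ℝ) * (R ^ (M + 1) - 1) := by
    fun_prop
  have hdd : deriv (fun R => p R - q / ((M + 1 : ℕ) : ℝ) * (R ^ (M + 1) - 1)) 1 = 0 := by
    have h1 : HasDerivAt (fun R => p R - q / ((M + 1 : ℕ) : ℝ) * (R ^ (M + 1) - 1))
        (p' 1 - q / ((M + 1 : ℕ) : ℝ) * (((M + 1 : ℕ) : ℝ) * 1 ^ (M + 1 - 1))) 1 :=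
      (hdp 1).sub (((hasDerivAt_pow (M + 1) (1 : ℝ)).sub_const 1).const_mul _)
    rw [h1.deriv, ← hqq, hM, one_pow, mul_one, div_mul_cancel₀ _ hM0, sub_self]
  obtain ⟨Cd, hCd, hd'⟩ := (hTA _ hsd (by simp [hp1])).2.1 hdd
  obtain ⟨hsq, hdq⟩ := as_qq (M + 1)
  have hse : ContDiff ℝ (⊤ : ℕ∞) fun R =>
      p R - q * Real.exp 1 * (qq (M + 1) R - qq (M + 1) 1) := by fun_prop
  have hde : deriv (fun R => p R - q * Real.exp 1 * (qq (M + 1) R - qq (M + 1) 1)) 1 = 0 := by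
    have h1 : HasDerivAt (fun R => p R - q * Real.exp 1 * (qq (M + 1) R - qq (M + 1) 1))
        (p' 1 - q * Real.exp 1 * (1 ^ (M + 1) * Real.exp (-1 ^ 2))) 1 :=
      (hdp 1).sub (((hdq 1).sub_const _).const_mul _)
    rw [h1.deriv, ← hqq, one_pow, one_mul, mul_assoc, ← Real.exp_add]
    norm_num
  obtain ⟨Ce, hCe, he⟩ := (hTA _ hse (by simp [hp1])).2.1 hde
  obtain ⟨Cf, hCf, hf⟩ := (hTA (fun R => p' R - q) (by fun_prop) (by rw [hqq, sub_self])).1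
  -- the expansion of order three
  obtain ⟨F, hF⟩ : ∃ F : ℝ → ℝ, F = fun R => -(R ^ M * p' R * p R) +
    q ^ 2 / ((M + 1 : ℕ) : ℝ) * (R ^ (M + 1) - 1) - (M : ℝ) * p R ^ 2 := ⟨_, rfl⟩
  have hsF : ContDiff ℝ (⊤ : ℕ∞) F := by rw [hF]; fun_prop
  obtain ⟨F1, hF1⟩ : ∃ F1 : ℝ → ℝ, F1 = fun R =>
    -(((M : ℝ) * R ^ (M - 1) * p' R + R ^ M * p2 R) * p R + R ^ M * p' R * p' R) +
    q ^ 2 * R ^ M - (M : ℝ) * (2 * p R * p' R) := ⟨_, rfl⟩
  have hdF : ∀ R, HasDerivAt F (F1 R) R := by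
    intro R
    have h1 : HasDerivAt (fun R => -(R ^ M * p' R * p R) +
        q ^ 2 / ((M + 1 : ℕ) : ℝ) * (R ^ (M + 1) - 1) - (M : ℝ) * p R ^ 2)
        (-(((M : ℝ) * R ^ (M - 1) * p' R + R ^ M * p2 R) * p R + R ^ M * p' R * p' R) +
          q ^ 2 / ((M + 1 : ℕ) : ℝ) * (((M + 1 : ℕ) : ℝ) * R ^ (M + 1 - 1)) -
          (M : ℝ) * (((2 : ℕ) : ℝ) * p R ^ (2 - 1) * p' R)) R :=
      ((((hasDerivAt_pow M R).mul (hdp' R)).mul (hdp R)).neg.add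
        (((hasDerivAt_pow (M + 1) R).sub_const 1).const_mul _)).sub
        (((hdp R).pow 2).const_mul _)
    rw [hF]
    refine h1.congr_deriv ?_
    rw [hF1]
    simp only [hM, Nat.add_sub_cancel]
    have h2 : q ^ 2 / ((M : ℝ) + 1) * (((M : ℝ) + 1) * R ^ M) = q ^ 2 * R ^ M := by
      rw [← mul_assoc, div_mul_cancel₀ _ hM0]
    rw [h2]
    norm_num
  have hderF : deriv F = F1 := funext fun R => (hdF R).deriv
  have hF11 : F1 1 = 0 := by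
    rw [hF1]
    simp only [one_pow, hp1, ← hqq]
    ring
  have hdF1 : deriv F1 1 = 0 := by
    have h1 : HasDerivAt (fun R =>
        -(((M : ℝ) * R ^ (M - 1) * p' R + R ^ M * p2 R) * p R + R ^ M * p' R * p' R) +
        q ^ 2 * R ^ M - (M : ℝ) * (2 * p R * p' R))
        (-(((M : ℝ) * (((M - 1 : ℕ) : ℝ) * 1 ^ (M - 1 - 1)) * p' 1 + (M : ℝ) * 1 ^ (M - 1) * p2 1 +
            ((M : ℝ) * 1 ^ (M - 1) * p2 1 + 1 ^ M * deriv p2 1)) * p 1 +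
          ((M : ℝ) * 1 ^ (M - 1) * p' 1 + 1 ^ M * p2 1) * p' 1 +
          (((M : ℝ) * 1 ^ (M - 1) * p' 1 + 1 ^ M * p2 1) * p' 1 + 1 ^ M * p' 1 * p2 1)) +
        q ^ 2 * ((M : ℝ) * 1 ^ (M - 1)) - (M : ℝ) * (2 * p' 1 * p' 1 + 2 * p 1 * p2 1)) 1 := by
      refine ((((((hasDerivAt_pow (M - 1) (1 : ℝ)).const_mul (M : ℝ)).mul (hdp' 1)).add
        ((hasDerivAt_pow M (1 : ℝ)).mul (hdp2 1))).mul (hdp 1)).add
        (((hasDerivAt_pow M (1 : ℝ)).mul (hdp' 1)).mul (hdp' 1))).neg.add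
        ((hasDerivAt_pow M (1 : ℝ)).const_mul (q ^ 2)) |>.sub
        ((((hdp 1).const_mul 2).mul (hdp' 1)).const_mul (M : ℝ))
    rw [hF1, h1.deriv]
    simp only [one_pow, hp1, hp21, ← hqq]
    ring
  obtain ⟨Ca, hCa, hFa⟩ := (hTA F hsF (by rw [hF]; simp [hp1])).2.2
    (by rw [hderF, hF11]) (by rw [hderF, hdF1])
  -- the constants
  obtain ⟨δ₀, hδ₀, hδ1, hδ2⟩ : ∃ δ₀ : ℝ, 0 < δ₀ ∧ δ₀ ≤ 1 / 2 ∧ Cb2 * δ₀ ≤ -q / 2 := by
    refine ⟨min (1 / 2) (-q / 2 / Cb2), lt_min (by norm_num)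
      (div_pos (by linarith) hCb2), min_le_left _ _, ?_⟩
    calc Cb2 * min (1 / 2) (-q / 2 / Cb2) ≤ Cb2 * (-q / 2 / Cb2) :=
          mul_le_mul_of_nonneg_left (min_le_right _ _) hCb2.le
      _ = -q / 2 := mul_div_cancel₀ _ hCb2.ne'
  have hqi : 0 < 2 / -q := div_pos two_pos (by linarith)
  refine ⟨Ca + Cb + 2 / -q + Cc + Cd + Ce + (Cf - q), δ₀, by linarith, hδ₀, hδ1, fun R hR => ?_⟩
  have hR2 : |R - 1| ≤ 1 / 2 := hR.trans hδ1
  have hab := abs_nonneg (R - 1)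
  have hsq0 := sq_nonneg (R - 1)
  have hR0 : 0 ≤ R := by
    have := (abs_le.1 hR2).1
    linarith
  have up : ∀ (c : ℝ) {X Y : ℝ}, 0 ≤ Y → c ≤ Ca + Cb + 2 / -q + Cc + Cd + Ce + (Cf - q) →
      X ≤ c * Y → X ≤ (Ca + Cb + 2 / -q + Cc + Cd + Ce + (Cf - q)) * Y := fun c X Y hY hc' hX =>
    hX.trans (mul_le_mul_of_nonneg_right hc' hY)
  refine ⟨?_, ?_, ?_, as_pow R _ (by omega) hR0, ?_, ?_, ?_, ?_⟩
  · have h0 : |F R| ≤ Ca * (|R - 1| * (R - 1) ^ 2) := by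
      rw [← mul_assoc]
      exact hFa R hR2
    have h1 := up Ca (mul_nonneg hab hsq0) (by linarith) h0
    have h2 := (abs_le.1 h1).1
    rw [hF] at h2
    simp only [hM] at h2
    rw [hff, hM]
    have h3 : (((M : ℝ) + 1) - 1) * p R ^ 2 = (M : ℝ) * p R ^ 2 := by ring
    rw [h3]
    have h4 : -(q ^ 2 / ((M : ℝ) + 1)) * (R ^ (M + 1) - 1) =
        -(q ^ 2 / ((M : ℝ) + 1) * (R ^ (M + 1) - 1)) := by ring
    rw [h4]
    linarith
  · have h1 := hb2 R hR2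
    have h2 : -q * |R - 1| ≤ |p R| + Cb2 * (R - 1) ^ 2 := by
      have h3 : |q * (R - 1)| ≤ |p R| + |p R - q * (R - 1)| := by
        have h4 : q * (R - 1) = p R - (p R - q * (R - 1)) := by ring
        conv_lhs => rw [h4]
        exact abs_sub _ _
      rw [abs_mul, abs_of_neg hq] at h3
      linarith
    have h5 : Cb2 * (R - 1) ^ 2 ≤ -q / 2 * |R - 1| := by
      have h6 : (R - 1) ^ 2 = |R - 1| * |R - 1| := by rw [← sq, sq_abs]
      rw [h6, ← mul_assoc]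
      refine mul_le_mul_of_nonneg_right ?_ hab
      exact (mul_le_mul_of_nonneg_left hR hCb2.le).trans hδ2
    have h7 : |R - 1| ≤ 2 / -q * |p R| := by
      rw [div_mul_eq_mul_div, le_div_iff₀ (by linarith)]
      nlinarith
    exact up _ (abs_nonneg _) (by linarith) h7
  · exact up Cb hab (by linarith) (hb R hR2)
  · exact up Cc hab (by linarith) (hc R hR2)
  · exact up Cd hsq0 (by linarith) (hd' R hR2)
  · exact up Ce hsq0 (by linarith) (he R hR2)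
  · have h1 := hf R hR2
    have h2 : |p' R| ≤ |p' R - q| + |q| := by
      have h3 : p' R = (p' R - q) + q := by ring
      conv_lhs => rw [h3]
      exact abs_add_le _ _
    rw [abs_of_neg hq] at h2
    have h4 : Cf * |R - 1| ≤ Cf := by nlinarith
    linarith

end Pool.Agent.H33.LQ
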